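import Pool.Agent.W5h93.AP.Cnt

/-! The unramified period-index conjecture for almost all classes on an arbitrary abelian variety.

Let `A` be an abelian variety of dimension `g` over an algebraically closed field `k`, with Picard number
`ρ` (so `ρ ≥ 1`), and let `n` be prime to the characteristic of `k`. Let `z_1, …, z_{2g}` be rational
functions on `A` whose classes form a basis of `H¹(A, μ_n)`. The cup products of these classes form a
basis of `H²(A, μ_n)`, and the kernel of the surjection from `H²(A, μ_n)` to the `n`-torsion of the Brauer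
group of `A` is `NS(A) / n`. So `Br(A)[n]` is the subgroup of the Brauer group of the function field `K`
which is generated by the symbols of degree `n` with entries in the group generated by `kˣ` and the
`z_i`, and a basis of `NS(A)` gives `ρ` relations `∑_{i<j} ω_r(i, j) (z_i, z_j) = 0`, which are linearly
independent modulo every prime number (as `NS(A) / p` is a subgroup of `H²(A, μ_p)`).

The theorem: if `n` is prime to `6` and `ρ ≥ 2`, then the proportion of the classes in `Br(A)[n]` which
are sums of `g - 1` symbols of degree `n`, hence of index dividing `n ^ (g - 1)` as predicted by the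
conjecture, is at least the product of the numbers `1 - 4 / p`, where `p` runs over the prime divisors
of `n`; for `ρ = 1` it is at least the product of the numbers `(1 - 4 / p) / 2`. In particular for `ρ ≥ 2`
almost all classes of period `p` (and of period a power of `p`) satisfy the conjecture as `p` tends to
infinity.

Idea: a class is given by an alternating matrix `b` modulo `n`, up to the translations by `∑ c_r ω_r`.
If some translate of `b` modulo `p` has a kernel of dimension two on which `ω_1` is nondegenerate, then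
`c = 0` is a simple zero modulo `p` of the Pfaffian of the line through it with direction `ω_1`; by
Hensel's lemma the line contains a degenerate matrix over the ring of `p`-adic integers, which is a sum
of `g - 1` decomposable ones. The first and second moments of the number of such translates, over all
`b` modulo `p`, show that they exist for the given proportion of the `b`.
-/

set_option autoImplicit false
set_option linter.all false

namespace Pool.Agent.Results.MP_43d240_ag.AlmostAllClasses

open Pool.Agent.Helper18.Br Pool.Agent.H552R3.SymBr Pool.Agent.H552R3.SymPred Pool.Agent.H552R3.Tsen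
  Pool.Agent.Y109.PI Pool.Agent.W5h93.PI Pool.Agent.W5h93.AP

universe u

/-- Let `K` be an extension of an algebraically closed field `k`, let `n` be prime to `6`, let `ζ ∈ K` be
a primitive `n`-th root of unity, `g ≥ 1` and `ρ ≥ 1`. Let `z_1, …, z_{2g}` be nonzero elements of `K` and
let `θ_ij` be the class of the symbol of degree `n` of `z_i` and `z_j`. Let `ω_1, …, ω_ρ` be families of
integers, indexed by the pairs `i < j`, which are linearly independent modulo every prime divisor of `n`,
with `∑_{i<j} ω_r(i, j) θ_ij = 0` in the Brauer group of `K` for all `r`. Let `B` be the subgroup of the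
Brauer group generated by the symbols of degree `n` with entries in the group generated by `kˣ` and the
`z_i`. Then `B` is finite, and the number of the classes in `B` which are sums of `g - 1` symbols of degree
`n` and whose index divides `n ^ (g - 1)` is at least `∏_{p ∣ n} (1 - 4 / p) / 2` times the order of
`B`, and at least `∏_{p ∣ n} (1 - 4 / p)` times the order of `B` if `ρ ≥ 2`. -/
theorem result {k K : Type u} [Field k] [IsAlgClosed k] [Field K] [Algebra k K] (n : ℕ) (hn : n.Coprime 6)
    (ζ : K) (hζ : IsPrimitiveRoot ζ n) (g ρ : ℕ) (hg : 0 < g) (hρ : 0 < ρ) (z : Fin (2 * g) → Kˣ)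
    (θ : Fin (2 * g) → Fin (2 * g) → BrauerGroup.{u, u} K) (hθ : ∀ i j, IsSym n ζ (z i) (z j) (θ i j))
    (ω : Fin ρ → Fin (2 * g) → Fin (2 * g) → ℤ)
    (hrel : ∀ r, ∏ i, ∏ j ∈ Finset.Ioi i, θ i j ^ ω r i j = 1)
    (hind : ∀ p : ℕ, p.Prime → p ∣ n → ∀ c : Fin ρ → ℤ,
      (∀ i j, i < j → (p : ℤ) ∣ ∑ r, c r * ω r i j) → ∀ r, (p : ℤ) ∣ c r)
    (G : Subgroup Kˣ)
    (hG : G = Subgroup.closure (Set.range (Units.map (algebraMap k K).toMonoidHom) ∪ Set.range z))
    (B : Subgroup (BrauerGroup.{u, u} K))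
    (hB : B = Subgroup.closure {γ | ∃ a ∈ G, ∃ b ∈ G, IsSym n ζ a b γ}) :
    Finite B ∧
    (∏ p ∈ n.primeFactors, (1 - 4 / (p : ℝ)) / 2) * (Nat.card B : ℝ) ≤
      Nat.card {α : B // (∃ (s t : Fin (g - 1) → Kˣ) (σ : Fin (g - 1) → BrauerGroup.{u, u} K),
        (∀ i, IsSym n ζ (s i) (t i) (σ i)) ∧ (α : BrauerGroup.{u, u} K) = ∏ i, σ i) ∧
        IndDvd (α : BrauerGroup.{u, u} K) (n ^ (g - 1))} ∧
    (2 ≤ ρ → (∏ p ∈ n.primeFactors, (1 - 4 / (p : ℝ))) * (Nat.card B : ℝ) ≤
      Nat.card {α : B // (∃ (s t : Fin (g - 1) → Kˣ) (σ : Fin (g - 1) → BrauerGroup.{u, u} K),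
        (∀ i, IsSym n ζ (s i) (t i) (σ i)) ∧ (α : BrauerGroup.{u, u} K) = ∏ i, σ i) ∧
        IndDvd (α : BrauerGroup.{u, u} K) (n ^ (g - 1))}) := by
  have hn0 : 0 < n := by
    rcases Nat.eq_zero_or_pos n with h | h
    · rw [h, Nat.coprime_zero_left] at hn
      omega
    · exact h
  have h5 : ∀ p : ℕ, p.Prime → p ∣ n → 5 ≤ p := by
    intro p hp hpn
    have h1 : p.Coprime 6 := hn.coprime_dvd_left hpn
    have h2 := hp.two_le
    by_contra hlt
    have h3 : p = 2 ∨ p = 3 ∨ p = 4 := by omega
    rcases h3 with rfl | rfl | rfl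
    · revert h1; decide
    · revert h1; decide
    · revert h1; decide
  let w : Fin ρ → Fin (2 * g) → Fin (2 * g) → ℤ := fun r i j => if i < j then ω r i j else 0
  let H : Subgroup Kˣ := (Units.map (algebraMap k K).toMonoidHom).range
  -- constants are `n`-th powers
  have hconst : ∀ a ∈ H, ∀ b, symHom hn0 hζ a b = 1 := by
    rintro _ ⟨c, rfl⟩ b
    obtain ⟨d, hd⟩ := IsAlgClosed.exists_pow_nat_eq (c : k) hn0
    have hd0 : d ≠ 0 := by
      rintro rfl
      rw [zero_pow hn0.ne'] at hd
      exact c.ne_zero hd.symm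
    have hc : c = (Units.mk0 d hd0) ^ n := by
      ext
      rw [Units.val_pow_eq_pow_val, Units.val_mk0, hd]
    rw [hc, map_pow, map_pow, MonoidHom.pow_apply, symHom_apply, symCl_tors]
  have hneg : (-1 : Kˣ) ∈ H := by
    refine ⟨-1, ?_⟩
    ext
    simp
  have hSy : Sy (symHom hn0 hζ) n H := by
    refine ⟨fun a b => symCl_anti hn0 hζ a b, fun a b => symCl_tors hn0 hζ a b, fun a => ?_, hconst⟩
    rcases symCl_diag hn0 hζ a with h | h
    · exact h
    · have h1 : symHom hn0 hζ a (-1) = 1 := by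
        have h2 : symHom hn0 hζ a (-1) = (symHom hn0 hζ (-1) a)⁻¹ := symCl_anti hn0 hζ a (-1)
        rw [h2, hconst _ hneg, inv_one]
      exact h.trans h1
  have hθ' : ∀ i j, θ i j = symHom hn0 hζ (z i) (z j) := by
    intro i j
    rw [(isSym_iff hn0 hζ (z i) (z j) (θ i j)).1 (hθ i j), symHom_apply]
  have hQ : ∀ r, Q (symHom hn0 hζ) z (w r) = 1 := by
    intro r
    rw [← hrel r, Q, Fintype.prod_prod_type]
    refine Finset.prod_congr rfl fun i _ => ?_
    have h1 : Finset.Ioi i = Finset.univ.filter fun j => i < j := by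
      ext j
      simp
    rw [h1, Finset.prod_filter]
    refine Finset.prod_congr rfl fun j _ => ?_
    simp only [w]
    split_ifs
    · rw [hθ']
    · exact zpow_zero _
  have hindp : ∀ (p : ℕ) [Fact p.Prime], p ∣ n → ∀ c : Fin ρ → ZMod p,
      ∑ r, c r • red p (dif (w r)) = 0 → c = 0 := by
    intro p hp hpn c hc
    haveI : NeZero p := ⟨hp.out.ne_zero⟩
    have h1 := hind p hp.out hpn (fun r => ((c r).val : ℤ)) (by
      intro i j hij
      rw [← ZMod.intCast_zmod_eq_zero_iff_dvd]
      have h2 := congrFun (congrFun hc i) j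
      simp only [Matrix.sum_apply, Matrix.smul_apply, smul_eq_mul, red, Matrix.map_apply, eq_intCast, dif,
        Matrix.of_apply, w, if_pos hij, if_neg hij.not_gt, sub_zero, Matrix.zero_apply] at h2
      rw [Int.cast_sum, ← h2]
      refine Finset.sum_congr rfl fun r _ => ?_
      rw [Int.cast_mul, vcast])
    funext r
    have h2 := h1 r
    rw [← ZMod.intCast_zmod_eq_zero_iff_dvd, vcast] at h2
    exact h2
  have hGH : G = H ⊔ Subgroup.closure (Set.range z) := by
    rw [hG, Subgroup.closure_union]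
    congr 1
    exact Subgroup.closure_eq H
  have hB' : B = Subgroup.closure {γ | ∃ a ∈ H ⊔ Subgroup.closure (Set.range z),
      ∃ b ∈ H ⊔ Subgroup.closure (Set.range z), γ = symHom hn0 hζ a b} := by
    rw [hB]
    congr 1
    ext γ
    simp only [Set.mem_setOf_eq, isSym_iff hn0 hζ, hGH, symHom_apply]
  have hcard : ∀ h : Finite B, Nat.card {α : B // ∃ x y : Fin (g - 1) → Kˣ,
      (α : BrauerGroup.{u, u} K) = ∏ i, symHom hn0 hζ (x i) (y i)} ≤
      Nat.card {α : B // (∃ (s t : Fin (g - 1) → Kˣ) (σ : Fin (g - 1) → BrauerGroup.{u, u} K),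
        (∀ i, IsSym n ζ (s i) (t i) (σ i)) ∧ (α : BrauerGroup.{u, u} K) = ∏ i, σ i) ∧
        IndDvd (α : BrauerGroup.{u, u} K) (n ^ (g - 1))} := by
    intro _
    refine Nat.card_le_card_of_injective (fun A => ⟨A.1, ?_⟩) ?_
    · obtain ⟨⟨α, hα⟩, s, t, h1⟩ := A
      refine ⟨⟨s, t, fun i => symCl hn0 hζ (s i) (t i), fun i => (isSym_iff hn0 hζ _ _ _).2 rfl, h1⟩, ?_⟩
      have h2 : α = ∏ i, symHom hn0 hζ (s i) (t i) := h1
      change IndDvd α (n ^ (g - 1))
      rw [h2]
      exact (hasRep_prod hn0 hζ (g - 1) s t).indDvd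
    · intro A A' hAA'
      exact Subtype.ext (congrArg (fun x => x.1) hAA')
  have main : ∀ δ : ℕ → ℝ, (∀ p ∈ n.primeFactors, 0 ≤ δ p) →
      (∀ p ∈ n.primeFactors, δ p * ((p : ℝ) ^ 3 + (p : ℝ) ^ 2 + ((p : ℝ) ^ ρ - 1) * ((p : ℝ) ^ 2 + p + 1)) ≤
      (p : ℝ) ^ ρ * ((p : ℝ) - 1 / p - ((p : ℝ) + 1) / (p - 1)) ^ 2) →
      Finite B ∧ (∏ p ∈ n.primeFactors, δ p) * (Nat.card B : ℝ) ≤
      Nat.card {α : B // (∃ (s t : Fin (g - 1) → Kˣ) (σ : Fin (g - 1) → BrauerGroup.{u, u} K),
        (∀ i, IsSym n ζ (s i) (t i) (σ i)) ∧ (α : BrauerGroup.{u, u} K) = ∏ i, σ i) ∧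
        IndDvd (α : BrauerGroup.{u, u} K) (n ^ (g - 1))} := by
    intro δ hδ0 hδ
    obtain ⟨hfin, h1⟩ := hSy.count hn0 hg ⟨0, hρ⟩ z w hQ B hB' δ hδ0 (by
      intro p hp
      have hpp := Nat.prime_of_mem_primeFactors hp
      have hpn := Nat.dvd_of_mem_primeFactors hp
      haveI : Fact p.Prime := ⟨hpp⟩
      exact prime_count hg ⟨0, hρ⟩ w (h5 p hpp hpn) (hindp p hpn) (δ p) (hδ p hp))
    refine ⟨hfin, h1.trans ?_⟩
    exact_mod_cast hcard hfin
  have hp5 : ∀ p ∈ n.primeFactors, (5 : ℝ) ≤ (p : ℝ) := by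
    intro p hp
    exact_mod_cast h5 p (Nat.prime_of_mem_primeFactors hp) (Nat.dvd_of_mem_primeFactors hp)
  have hpos : ∀ p ∈ n.primeFactors, (0 : ℝ) ≤ 1 - 4 / (p : ℝ) := by
    intro p hp
    have h := hp5 p hp
    rw [sub_nonneg, div_le_one (by linarith)]
    linarith
  obtain ⟨hfin, h1⟩ := main (fun p => (1 - 4 / (p : ℝ)) / 2)
    (fun p hp => div_nonneg (hpos p hp) two_pos.le) (fun p hp => num_one (hp5 p hp) (by
      have h := hp5 p hp
      exact le_self_pow₀ (by linarith) hρ.ne'))
  refine ⟨hfin, h1, fun h2 => ?_⟩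
  exact (main (fun p => 1 - 4 / (p : ℝ)) hpos (fun p hp => num_two (hp5 p hp) (by
      have h := hp5 p hp
      exact pow_le_pow_right₀ (by linarith) h2))).2

end Pool.Agent.Results.MP_43d240_ag.AlmostAllClasses
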