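import Mathlib
import Pool.Agent.W5h66.PW.Abs
import Pool.Agent.H552R3.SymPred
import Pool.Agent.H552R3.Tsen.Tower

/-! The unramified period-index conjecture for the product of an arbitrary variety and a high power of an
abelian variety.

Let `A` be an abelian variety of dimension `g ≥ 1` with a principal polarisation (or one of degree prime to
`n`) over an algebraically closed field `k`, let `Y` be a smooth projective variety of dimension `e` over `k`,
and let `K` be the function field of `X = Y × A ^ m`; `n` is prime to the characteristic of `k`. The group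
`H¹(A, μ_n)` has a basis of `2 g` classes of rational functions; their pull-backs to `X` under the `m`
projections are denoted by `z (i, u)`. The group `H¹(Y, μ_n)` is generated by `h` classes `y j` of rational
functions on `Y`, where `h` does not depend on `n`. The class of the polarisation modulo `n` is
`∑ w u v (z u, z v)`, where the determinant of `w u v - w v u` is prime to `n`. Its pull-back under the
homomorphism `A ^ m → A` with the coefficients `r 1, …, r m` is
`∑ r i * r j * w u v (z (i, u), z (j, v))`; it is the class of a line bundle, so it vanishes in the Brauer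
group of `K`. By the Künneth formula every unramified class of period dividing `n` of `K` is the sum of the
pull-back `β` of a class in `Br(Y)` and of symbols of degree `n` with entries in the group generated by the
`z (i, u)` and the `y j`.

The theorem: for every `c ≥ 1` and all `m ≥ m₀`, where `m₀` is a linear function of `c` (and `h`), such a class
is the sum of `β` and of `m g - c` symbols of degree `n`. So its index divides `N n ^ (m g - c)`, if the index of
all `β` divides `N`; the conjecture predicts that it divides `n ^ (e + m g - 1)`. So the conjecture holds for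
`Y × A ^ m`, for all large `m` and all periods prime to the characteristic, whenever `N = n ^ e'` with `e'`
independent of `n` (for a point or a curve `N = 1`). Moreover the exponent `dim X - 1` is far from optimal for
such varieties: it can be replaced by `(1 - δ) dim X` for large `m`, with `δ > 0` depending only on `g`. For
example for the power `E ^ m` of an elliptic curve, and all `n`, the index divides `n ^ (m - c)` if
`m ≥ 12 c - 10`. Nothing is assumed about the endomorphisms of `A`.

The idea: alternating matrices `b` over `ℤ_p` are changed by `S ⊗ ω`, `S` symmetric, `ω` the matrix of the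
polarisation. We look for `c' = h + 2 c - 1` vectors in the kernel of `b + S ⊗ ω`; together they have `2 g c'`
components in `ℤ_p ^ m`. If these form a primitive system, then a symmetric matrix `S` exists if and only if
they satisfy a system of quadratic equations. The vectors are chosen one after the other: the components of the
next one are shifts of one vector with coordinates outside of the pivots of the earlier ones, and it has to
satisfy `(g - 1) (2 g + 1)` quadratic equations and linear equations, whose number is a linear function of the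
number of the earlier vectors.
-/

set_option autoImplicit false
set_option linter.all false

open scoped TensorProduct

namespace Pool.Agent.Results.MP_43d240_ag.HighPowers

open Pool.Agent.Helper18.Br Pool.Agent.H552R3.SymBr Pool.Agent.H552R3.SymPred Pool.Agent.H552R3.Tsen
  Pool.Agent.Y109.PI Pool.Agent.W5h66.PW

universe u

/-- Let `K` be an extension of an algebraically closed field `k`, let `ζ ∈ K` be a primitive `n`-th root
of unity, `n ≥ 1`, let `g, c ≥ 1`, `h ≥ 0`, and let `w` be an integral matrix of size `2 g` such that the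
determinant of `w u v - w v u` is prime to `n`. Let `z (i, u)`, `i < m`, `u < 2 g`, and `y j`, `j < h`, be
nonzero elements of `K`, and let `V` be a subgroup of the Brauer group of `K`, such that
`∑ r i * r j * w u v (z (i, u), z (j, v))`, a combination of symbols of degree `n`, is in `V` for all integers
`r 1, …, r m`. Put `c' = h + 2 c - 1`, and suppose that
* `n` is squarefree and `m ≥ 2 g (2 g + 1) c' + h - 2 g - 2`, or
* `m ≥ 2 g (2 g + 1) c' + h - 4 g ^ 2 + 34 (2 ^ ((g - 1) (2 g + 1)) - 1)`.
Let `α` be the sum of an element of `V` and of symbols of degree `n` with entries in the group generated by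
`kˣ`, the `z (i, u)` and the `y j`. Then `α` is the sum of an element of `V` and of `m g - c` symbols of degree
`n`, and if the index of all elements of `V` divides `N`, then the index of `α` divides `N n ^ (m g - c)`. -/
theorem result {k K : Type u} [Field k] [IsAlgClosed k] [Field K] [Algebra k K] (n : ℕ) (hn : 0 < n)
    (ζ : K) (hζ : IsPrimitiveRoot ζ n) (g h c m : ℕ) (hg : 0 < g) (hc : 0 < c)
    (w : Fin (2 * g) → Fin (2 * g) → ℤ)
    (hw : IsCoprime (Matrix.of fun u v => w u v - w v u).det (n : ℤ))
    (z : Fin m × Fin (2 * g) → Kˣ) (y : Fin h → Kˣ) (V : Subgroup (BrauerGroup.{u, u} K))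
    (θ : Fin m × Fin (2 * g) → Fin m × Fin (2 * g) → BrauerGroup.{u, u} K)
    (hθ : ∀ p q, IsSym n ζ (z p) (z q) (θ p q))
    (hrel : ∀ r : Fin m → ℤ, ∏ p, ∏ q, θ p q ^ (r p.1 * r q.1 * w p.2 q.2) ∈ V)
    (c' : ℕ) (hc' : c' = h + 2 * c - 1)
    (hm : (Squarefree n ∧ 2 * g * (2 * g + 1) * c' + h ≤ m + 2 * g + 2) ∨
      34 * 2 ^ ((g - 1) * (2 * g + 1)) + 2 * g * (2 * g + 1) * c' + h ≤ m + 34 + 4 * g ^ 2)
    (G : Subgroup Kˣ)
    (hG : G = Subgroup.closure (Set.range (Units.map (algebraMap k K).toMonoidHom) ∪ Set.range z ∪ Set.range y))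
    (α : BrauerGroup.{u, u} K)
    (hα : α ∈ V ⊔ Subgroup.closure {γ | ∃ a ∈ G, ∃ b ∈ G, IsSym n ζ a b γ}) :
    (∃ (a b : Fin (m * g - c) → Kˣ) (σ : Fin (m * g - c) → BrauerGroup.{u, u} K),
      (∀ i, IsSym n ζ (a i) (b i) (σ i)) ∧ ∃ β ∈ V, α = (∏ i, σ i) * β) ∧
    ∀ N : ℕ, 0 < N → (∀ β ∈ V, IndDvd β N) → IndDvd α (N * n ^ (m * g - c)) := by
  obtain ⟨ν, hν, α', hα', rfl⟩ := Subgroup.mem_sup.1 hα
  let H : Subgroup Kˣ := (Units.map (algebraMap k K).toMonoidHom).range
  have hneg : (-1 : Kˣ) ∈ H := by
    refine ⟨-1, ?_⟩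
    ext
    simp
  -- constants are `n`-th powers
  have hconst : ∀ a ∈ H, ∀ b, symHom hn hζ a b = 1 := by
    rintro _ ⟨t, rfl⟩ b
    obtain ⟨e, he⟩ := IsAlgClosed.exists_pow_nat_eq (t : k) hn
    have he0 : e ≠ 0 := by
      rintro rfl
      rw [zero_pow hn.ne'] at he
      exact t.ne_zero he.symm
    have ht : t = (Units.mk0 e he0) ^ n := by
      ext
      rw [Units.val_pow_eq_pow_val, Units.val_mk0, he]
    rw [ht, map_pow, map_pow, MonoidHom.pow_apply, symHom_apply, symCl_tors]
  have hVH : ∀ a ∈ H, ∀ b ∈ H, symHom hn hζ a b ∈ V := fun a ha b _ => by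
    rw [hconst a ha b]; exact Subgroup.one_mem _
  let zz : (Fin m × Fin (2 * g)) ⊕ Fin h → Kˣ := Sum.elim z y
  have hzz : Set.range zz = Set.range z ∪ Set.range y := Set.Sum.elim_range z y
  have hlow : low (symHom hn hζ) H V zz ≤ V := by
    refine sup_le le_rfl ?_
    rw [Subgroup.closure_le]
    rintro γ ⟨a, ha, u, rfl⟩
    rw [hconst a ha]
    exact Subgroup.one_mem _
  have hGH : G = H ⊔ Subgroup.closure (Set.range zz) := by
    rw [hG, Set.union_assoc, ← hzz, Subgroup.closure_union]
    congr 1
    exact Subgroup.closure_eq H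
  have hα'' : α' ∈ Subgroup.closure {γ | ∃ a ∈ H ⊔ Subgroup.closure (Set.range zz),
      ∃ b ∈ H ⊔ Subgroup.closure (Set.range zz), γ = symHom hn hζ a b} := by
    have : {γ | ∃ a ∈ G, ∃ b ∈ G, IsSym n ζ a b γ} =
        {γ | ∃ a ∈ H ⊔ Subgroup.closure (Set.range zz),
      ∃ b ∈ H ⊔ Subgroup.closure (Set.range zz), γ = symHom hn hζ a b} := by
      ext γ
      simp only [Set.mem_setOf_eq, isSym_iff hn hζ, hGH, symHom_apply]
    rw [← this]; exact hα'
  have hQ : ∀ r : Fin m → ℤ, Q (symHom hn hζ) zz (wr h w r) ∈ low (symHom hn hζ) H V zz := by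
    intro r
    have h1 : Q (symHom hn hζ) zz (wr h w r) = ∏ p, ∏ q, θ p q ^ (r p.1 * r q.1 * w p.2 q.2) := by
      rw [Q, Fintype.prod_prod_type, Fintype.prod_sum_type]
      have h2 : ∀ q : Fin h, ∏ v, symHom hn hζ (zz (Sum.inr q)) (zz v) ^ wr h w r (Sum.inr q) v = 1 := by
        intro q
        refine Finset.prod_eq_one fun v _ => ?_
        have h3 : wr h w r (Sum.inr q) v = 0 := rfl
        rw [h3, zpow_zero]
      rw [Finset.prod_congr rfl fun q _ => h2 q, Finset.prod_const_one, mul_one]
      refine Finset.prod_congr rfl fun p _ => ?_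
      rw [Fintype.prod_sum_type]
      have h4 : ∏ q : Fin h, symHom hn hζ (zz (Sum.inl p)) (zz (Sum.inr q)) ^
          wr h w r (Sum.inl p) (Sum.inr q) = 1 := by
        refine Finset.prod_eq_one fun v _ => ?_
        have h3 : wr h w r (Sum.inl p) (Sum.inr v) = 0 := rfl
        rw [h3, zpow_zero]
      rw [h4, mul_one]
      refine Finset.prod_congr rfl fun q _ => ?_
      have h5 : wr h w r (Sum.inl p) (Sum.inl q) = r p.1 * r q.1 * w p.2 q.2 := rfl
      rw [h5, (isSym_iff hn hζ (z p) (z q) (θ p q)).1 (hθ p q), symHom_apply]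
      rfl
    rw [h1]
    exact low_V (symHom hn hζ) (hrel r)
  obtain ⟨g', rfl⟩ : ∃ g', g = g' + 1 := ⟨g - 1, by omega⟩
  have e1 : 2 * (g' + 1) * (2 * (g' + 1) + 1) * c' =
      (2 * (g' + 1) * (2 * (g' + 1)) + 2 * (g' + 1)) * c' := by ring
  have e2 : 2 * (g' + 1) * (2 * (g' + 1) - 1) / 2 - 1 = (g' + 1 - 1) * (2 * (g' + 1) + 1) := by
    have h1 : 2 * (g' + 1) - 1 = 2 * g' + 1 := by omega
    have h2 : 2 * (g' + 1) * (2 * g' + 1) = 2 * (g' * (2 * g' + 3) + 1) := by ring
    rw [h1, h2, Nat.mul_div_cancel_left _ two_pos, Nat.add_sub_cancel, Nat.add_sub_cancel]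
    ring
  have e3 : 4 * (g' + 1) ^ 2 = 2 * (g' + 1) * (2 * (g' + 1)) := by ring
  have hm' : (Squarefree n ∧ (2 * (g' + 1) * (2 * (g' + 1)) + 2 * (g' + 1)) * c' + h ≤ m + 2 * (g' + 1) + 2) ∨
      34 * 2 ^ (2 * (g' + 1) * (2 * (g' + 1) - 1) / 2 - 1) +
        (2 * (g' + 1) * (2 * (g' + 1)) + 2 * (g' + 1)) * c' + h ≤ m + 34 + 2 * (g' + 1) * (2 * (g' + 1)) := by
    rw [← e1, ← e3, e2]
    exact hm
  have hmg : c ≤ m * (g' + 1) := by
    have h1 : c ≤ c' := by omega
    have h2 : c' ≤ m := by
      have h4 : (2 * (g' + 1) * (2 * (g' + 1)) + 2 * (g' + 1)) * c' =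
          4 * (g' * g' * c') + 10 * (g' * c') + 6 * c' := by ring
      have h5 : 2 * (g' + 1) * (2 * (g' + 1)) = 4 * (g' * g') + 8 * g' + 4 := by ring
      have h6 : g' ≤ g' * c' := Nat.le_mul_of_pos_right _ (by omega)
      have h7 : g' * g' ≤ g' * g' * c' := Nat.le_mul_of_pos_right _ (by omega)
      rcases hm' with ⟨_, hm'⟩ | hm'
      · rw [h4] at hm'
        omega
      · rw [h4, h5] at hm'
        have h8 : 1 ≤ 2 ^ (2 * (g' + 1) * (2 * (g' + 1) - 1) / 2 - 1) := Nat.one_le_two_pow
        omega
    exact (h1.trans h2).trans (Nat.le_mul_of_pos_right _ (by omega))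
  obtain ⟨a, b, hab⟩ := abs_pow (s := symHom hn hζ) (fun a b => symCl_anti hn hζ a b) n hn
    (fun a b => symCl_tors hn hζ a b) (-1) H hneg (fun a => symCl_diag hn hζ a) V hVH zz w hQ
    (c := c') (t := m * (g' + 1) - c) (by omega) (by
      have h1 : m * (2 * (g' + 1)) = 2 * (m * (g' + 1)) := by ring
      rw [h1]
      omega) hm' hw α' hα''
  have h1 := hlow hab
  have h2 : ν * α' = (∏ i, symHom hn hζ (a i) (b i)) *
      (α' * (∏ i, symHom hn hζ (a i) (b i))⁻¹ * ν) := by
    generalize ∏ i, symHom hn hζ (a i) (b i) = q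
    calc ν * α' = q * q⁻¹ * (α' * ν) := by rw [mul_inv_cancel, one_mul, mul_comm]
      _ = _ := by simp only [mul_assoc, mul_comm, mul_left_comm]
  have h3 : α' * (∏ i, symHom hn hζ (a i) (b i))⁻¹ * ν ∈ V := Subgroup.mul_mem _ h1 hν
  refine ⟨⟨a, b, fun i => symCl hn hζ (a i) (b i), fun i => (isSym_iff hn hζ _ _ _).2 rfl, _, h3, h2⟩,
    fun N hN hVN => ?_⟩
  rw [h2, mul_comm N]
  exact ((hasRep_prod hn hζ (m * (g' + 1) - c) a b).mul ((hVN _ h3).hasRep hN)).indDvd

end Pool.Agent.Results.MP_43d240_ag.HighPowers
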