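import Pool.Agent.W5h91.WF.K

/-! The unramified period-index conjecture for classes of `p`-power period in characteristic `p`.

Let `k` be an algebraically closed field of characteristic `p` and `q = p ^ n`.

* A character `χ ∈ H¹(K, ℤ/q)` of a field `K ⊇ k` defines the homomorphism `b ↦ (χ, b)` from `Kˣ` to
  `Br(K)` (cyclic algebras). If `b` is a `q`-th power in a finite extension `L` of `K`, then `L` splits
  `(χ, b)`: this is the property `SplitByRoots q`.
* If `B` is an ordinary abelian variety of dimension `r` over `k`, then `H²(B, μ_q)` (flat cohomology) is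
  `H¹(B, ℤ/q) ⊗ H¹(B, μ_q)`, a free `ℤ/q`-module of rank `r ^ 2`. So the classes in `Br(B)[q]` are the sums
  of the classes `φ_i(f_j) = (χ_i, f_j)`, with a basis `χ_i` of `H¹(B, ℤ/q)` and rational functions `f_j` which
  represent a basis of `H¹(B, μ_q) = Pic(B)[q]`, and the Néron-Severi group of `B` gives relations between
  them: if `B` has real multiplication by `O` (commutative, of rank `r` over `ℤ`, discriminant prime to `p`,
  with a polarisation of degree prime to `p` whose Rosati involution is trivial on `O`), the relations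
  `Σ Tr(c ε_i ε_j) φ_i(f_j) = 0` for all `c ∈ O` hold for suitable bases. A product of ordinary elliptic
  curves is the case `O = ℤ ^ r`, with the relations `φ_i(f_i) = 0`. For every polarisation of degree
  prime to `p` there are bases with `Σ φ_i(f_i) = 0`.
* For a variety `Y` over `k` the group `Br(Y × B)[q]` is generated by `Br(B)[q]`, `W = Br(Y)[q]` and the classes
  `φ_i(u)` with `u ∈ U = H¹(Y, μ_q)` and `ψ(f_j)` with `ψ ∈ Ψ = H¹(Y, ℤ/q)`; if `Y` is a curve, then `W = 0`.
* If `A = E ^ g` is a superspecial abelian variety (`E` a supersingular elliptic curve), then its `g`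
  invariant differentials are exact, equal to `dx_1, …, dx_g`, and `Br(A)` is generated by the classes
  of the algebras `x ^ p = a`, `y ^ p = b`, `x y - y x = 1` with `a, b ∈ k x_1 + ⋯ + k x_g`. The group
  `Br(B × A)` is the sum of `Br(B)` and `Br(A)`, up to classes of period prime to `p`.

These facts are not used in the theorem below, which is about arbitrary fields.
-/

set_option autoImplicit false
set_option linter.all false

open scoped TensorProduct

namespace Pool.Agent.Results.MP_43d240_ag.PPrimaryClasses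

open Pool.Agent.Helper18.Br Pool.Agent.H552R3.SymBr Pool.Agent.W5h91.WF

universe u v

/-- `K^p(t_1, …, t_e)`, the subfield generated by the `p`-th powers and the `t_i`. -/
def PowField {K : Type u} [Field K] (p : ℕ) {e : ℕ} (t : Fin e → K) : Subfield K :=
  Subfield.closure (Set.range (fun c : K => c ^ p) ∪ Set.range t)

/-- The relations of real multiplication: there is a commutative ring `O` which is free over `ℤ` with
the basis `ε_1, …, ε_r` and with discriminant prime to `p` such that `Σ Tr(c ε_i ε_j) φ_i(f_j) = 0`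
for all `c ∈ O`. -/
def RelRM {K : Type u} [Field K] (p : ℕ) {r : ℕ} (φ : Fin r → (Kˣ →* BrauerGroup.{u, u} K)) (f : Fin r → Kˣ) :
    Prop :=
  ∃ (O : Type) (_ : CommRing O) (ε : Module.Basis (Fin r) ℤ O), IsCoprime (Algebra.discr ℤ ε) (p : ℤ) ∧
    ∀ c : O, ∏ i, ∏ j, φ i (f j) ^ (Algebra.trace ℤ O (c * ε i * ε j)) = 1

/-- Let `K` be an extension of an algebraically closed field `k` of characteristic `p`, `q = p ^ n > 1`,
let `φ_i : Kˣ → Br(K)`, `i ≤ r`, be homomorphisms such that `φ_i(b)` is split by every finite extension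
in which `b` is a `q`-th power, and let `f_1, …, f_r ∈ Kˣ`, `x_1, …, x_g, t_1, …, t_e ∈ K`. Assume the
relations of real multiplication for `φ_i(f_j)`, or that `r < p` and `Σ φ_i(f_i) = 0`. Let `U` be a subgroup
of `Kˣ`, `Ψ` a group of homomorphisms with the same property as the `φ_i`, and `W` a subgroup of `Br(K)` which
contains all `ψ(u)` with `ψ ∈ Ψ`, `u ∈ U`, such that the indices of its elements divide `m ≥ 1`. Denote by
`w(a, b)` the class of the central simple algebras of dimension `p ^ 2` with elements `x, y` such that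
`x ^ p = a`, `y ^ p = b`, `x y - y x = 1`.

Then the index of every class in the group generated by `W`, all `φ_i(f_j)`, `φ_i(u)` for `u ∈ U`, `ψ(f_j)` for
`ψ ∈ Ψ`, the `w(a, b)` with `b ∈ K^p(t_1, …, t_e)`, and the `w(a, b)` with `a, b ∈ k x_1 + ⋯ + k x_g`, divides
`m p ^ (n r + e + ⌊g / 2⌋)`, and even `m p ^ (n (r - 1) + e + ⌊g / 2⌋)` if `r > 0`, the relations of real
multiplication hold and `U`, `Ψ` are trivial. -/
theorem result {k : Type v} [Field k] [IsAlgClosed k] {K : Type u} [Field K] [Algebra k K] (p : ℕ)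
    [Fact p.Prime] [CharP K p] (n : ℕ) (hn : 0 < n) (g e r : ℕ) (x : Fin g → K) (t : Fin e → K)
    (φ : Fin r → (Kˣ →* BrauerGroup.{u, u} K)) (f : Fin r → Kˣ) (hφ : ∀ i, SplitByRoots (p ^ n) (φ i))
    (hrel : RelRM p φ f ∨ (r < p ∧ ∏ i, φ i (f i) = 1))
    (U : Subgroup Kˣ) (Ψ : Subgroup (Kˣ →* BrauerGroup.{u, u} K)) (W : Subgroup (BrauerGroup.{u, u} K))
    (m : ℕ) (hΨ : ∀ ψ ∈ Ψ, SplitByRoots (p ^ n) ψ) (hW : ∀ ψ ∈ Ψ, ∀ u ∈ U, ψ u ∈ W) (hm : 0 < m)
    (hind : ∀ β ∈ W, IndDvd β m) (α : BrauerGroup.{u, u} K)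
    (hα : α ∈ Subgroup.closure
      ({γ | ∃ i j, γ = φ i (f j)} ∪ {γ | ∃ i, ∃ u ∈ U, γ = φ i u} ∪ {γ | ∃ ψ ∈ Ψ, ∃ j, γ = ψ (f j)} ∪
        {γ | γ ∈ W} ∪
        {γ | ∃ a b : K, b ∈ PowField p t ∧ IsForm p a b γ} ∪
        {γ | ∃ a ∈ Submodule.span k (Set.range x), ∃ b ∈ Submodule.span k (Set.range x), IsForm p a b γ})) :
    IndDvd α (m * p ^ (n * r + e + g / 2)) ∧
      (0 < r → RelRM p φ f → U = ⊥ → Ψ = ⊥ → IndDvd α (m * p ^ (n * (r - 1) + e + g / 2))) := by
  have h : ({γ | ∃ i j, γ = φ i (f j)} ∪ {γ | ∃ i, ∃ u ∈ U, γ = φ i u} ∪ {γ | ∃ ψ ∈ Ψ, ∃ j, γ = ψ (f j)} ∪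
            {γ | γ ∈ W} ∪
            {γ | ∃ a b : K, b ∈ PowField p t ∧ IsForm p a b γ} ∪
            {γ | ∃ a ∈ Submodule.span k (Set.range x), ∃ b ∈ Submodule.span k (Set.range x),
              IsForm p a b γ}) =
        (((({γ | ∃ i j, γ = φ i (f j)} ∪ {γ | ∃ i, ∃ u ∈ U, γ = φ i u}) ∪
          {γ | ∃ ψ ∈ Ψ, ∃ j, γ = ψ (f j)}) ∪ (W : Set (BrauerGroup.{u, u} K))) ∪
          ({γ | ∃ a b : K, b ∈ Subfield.closure (Set.range (fun c : K => c ^ p) ∪ Set.range t) ∧
            IsForm p a b γ} ∪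
          {γ | ∃ a ∈ Submodule.span k (Set.range x), ∃ b ∈ Submodule.span k (Set.range x),
            IsForm p a b γ})) := by
    rw [← Set.union_assoc]
    rfl
  rw [h] at hα
  refine ⟨index_bound2 (k := k) n x t φ f hφ hrel U Ψ hΨ W hW m hm hind α hα, ?_⟩
  rintro hr ⟨O, _, ε, hdisc, hrel'⟩ rfl rfl
  exact index_bound3 (k := k) n hn hr x t ε hdisc φ f hφ hrel' W m hm hind α hα

end Pool.Agent.Results.MP_43d240_ag.PPrimaryClasses
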