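import Pool.Agent.W5h93.PI.RMTwo

/-! The unramified period-index conjecture for abelian varieties with real multiplication: all periods.

Let `A` be an abelian variety of dimension `g` over an algebraically closed field `k` with real
multiplication by a commutative ring `O` which is free of rank `g` over `ℤ` (for example the ring of
integers of a totally real number field of degree `g`, or a product of such rings; `A` may be any
product of elliptic curves, or any abelian variety with complex multiplication), and let `n` be prime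
to the characteristic of `k` and to the discriminant of `O`. Then the group `H¹(A, μ_n)` has a basis
`x_1, …, x_g, y_1, …, y_g` of classes of rational functions such that for all `r ∈ O` the class
`∑ Tr(r ε_i ε_j) (x_i, y_j)` comes from the Néron-Severi group, so it is zero in the Brauer group of
the function field `K` of `A`. The unramified classes of period dividing `n` are sums of symbols with
entries in the group generated by `kˣ`, the `x_i` and the `y_j`.

The theorem: if every prime number `p` such that `p ^ 2` divides `n` has a place of degree one in `O`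
(there is a homomorphism from `O` to the ring of `p`-adic integers), then every such class is the sum of
`g - 1` symbols of degree `n`, and its index divides `n ^ (g - 1)`, as predicted by the conjecture.

For squarefree `n` this is the theorem `RealMultiplication` of the starting files; the idea for prime
powers: a place of degree one gives a class in `NS(A) ⊗ ℤ_p` of rank two, and on some line in the
direction of this class the Pfaffian is a linear polynomial whose leading coefficient is a `p`-adic unit
(by the theorem of Chevalley and Warning, applied to the number of degenerate members), so it has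
a `p`-adic zero.
-/

set_option autoImplicit false
set_option linter.all false

open scoped TensorProduct

namespace Pool.Agent.Results.MP_43d240_ag.SplitPrimes

open Pool.Agent.Helper18.Br Pool.Agent.H552R3.SymBr Pool.Agent.H552R3.SymPred Pool.Agent.H552R3.Tsen
  Pool.Agent.Y109.PI Pool.Agent.W5h93.PI

universe u v

/-- Let `K` be an extension of an algebraically closed field `k`, let `ζ ∈ K` be a primitive `n`-th root
of unity, `O` a commutative ring which is free over `ℤ` with the basis `ε_1, …, ε_g`, `g ≥ 1`, and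
with discriminant prime to `n`, such that for every prime number `p` with `p ^ 2 ∣ n` there is a ring
homomorphism from `O` to the ring of `p`-adic integers. Let `x_1, …, x_g, y_1, …, y_g` be nonzero elements
of `K` such that `∑ Tr(r ε_i ε_j) (x_i, y_j) = 0` in the Brauer group of `K` for all `r ∈ O`, where
`(x_i, y_j)` are symbols of degree `n`. Then every class generated by symbols of degree `n` with entries
in the group generated by `kˣ` and the `x_i`, `y_j` is the sum of `g - 1` symbols of degree `n`, and its
index divides `n ^ (g - 1)`. -/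
theorem result {k K : Type u} [Field k] [IsAlgClosed k] [Field K] [Algebra k K] (n : ℕ) (hn : 0 < n)
    (ζ : K) (hζ : IsPrimitiveRoot ζ n) (O : Type v) [CommRing O] (g : ℕ) (hg : 0 < g)
    (ε : Module.Basis (Fin g) ℤ O) (hdisc : IsCoprime (Algebra.discr ℤ ε) (n : ℤ))
    (hsplit : ∀ (p : ℕ) [Fact p.Prime], p ^ 2 ∣ n → Nonempty (O →+* ℤ_[p]))
    (x y : Fin g → Kˣ) (θ : Fin g → Fin g → BrauerGroup.{u, u} K)
    (hθ : ∀ i j, IsSym n ζ (x i) (y j) (θ i j))
    (hrel : ∀ r : O, ∏ i, ∏ j, θ i j ^ (Algebra.trace ℤ O (r * ε i * ε j)) = 1)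
    (G : Subgroup Kˣ)
    (hG : G = Subgroup.closure (Set.range (Units.map (algebraMap k K).toMonoidHom) ∪ Set.range x ∪ Set.range y))
    (α : BrauerGroup.{u, u} K)
    (hα : α ∈ Subgroup.closure {γ | ∃ a ∈ G, ∃ b ∈ G, IsSym n ζ a b γ}) :
    (∃ (s t : Fin (g - 1) → Kˣ) (σ : Fin (g - 1) → BrauerGroup.{u, u} K),
      (∀ i, IsSym n ζ (s i) (t i) (σ i)) ∧ α = ∏ i, σ i) ∧ IndDvd α (n ^ (g - 1)) := by
  have hdp : ∀ p : ℕ, p.Prime → p ∣ n → ¬ (p : ℤ) ∣ Algebra.discr ℤ ε := by
    intro p hp hpn h
    have h1 : IsUnit (p : ℤ) := hdisc.isUnit_of_dvd' h (Int.natCast_dvd_natCast.2 hpn)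
    exact (Nat.prime_iff_prime_int.1 hp).not_unit h1
  let z : Fin g ⊕ Fin g → Kˣ := Sum.elim x y
  have hz : Set.range z = Set.range x ∪ Set.range y := Set.Sum.elim_range x y
  have hord : ∀ p : ℕ, p.Prime → p ∣ n → OrdAt p g (rmw ε) := by
    intro p hp hpn
    haveI : Fact p.Prime := ⟨hp⟩
    exact rm_ord ε p hg (hdp p hp hpn)
  have hgood : ∀ (p : ℕ) [Fact p.Prime], p ^ 2 ∣ n →
      ∃ (a : Fin g → ℤ_[p]) (e f : Fin g ⊕ Fin g → ℤ_[p]), RankTwo p (rmw ε) a e f := by
    intro p hp h2
    obtain ⟨φ⟩ := hsplit p h2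
    exact rm_two ε (hdp p hp.out ((dvd_pow_self p two_ne_zero).trans h2)) φ
  have hQ : ∀ i, Q (symHom hn hζ) z (rmw ε i) = 1 := by
    intro i
    have h1 := hrel (ε i)
    rw [Q, Fintype.prod_prod_type, Fintype.prod_sum_type]
    have h2 : ∀ q : Fin g, ∏ v, symHom hn hζ (z (Sum.inr q)) (z v) ^ rmw ε i (Sum.inr q) v = 1 := by
      intro q
      refine Finset.prod_eq_one fun v _ => ?_
      have h3 : rmw ε i (Sum.inr q) v = 0 := rfl
      rw [h3, zpow_zero]
    rw [Finset.prod_congr rfl fun q _ => h2 q, Finset.prod_const_one, mul_one, ← h1]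
    refine Finset.prod_congr rfl fun l _ => ?_
    rw [Fintype.prod_sum_type]
    have h4 : ∏ q : Fin g, symHom hn hζ (z (Sum.inl l)) (z (Sum.inl q)) ^ rmw ε i (Sum.inl l) (Sum.inl q) = 1 := by
      refine Finset.prod_eq_one fun q _ => ?_
      have h3 : rmw ε i (Sum.inl l) (Sum.inl q) = 0 := rfl
      rw [h3, zpow_zero]
    rw [h4, one_mul]
    refine Finset.prod_congr rfl fun q _ => ?_
    have h5 : rmw ε i (Sum.inl l) (Sum.inr q) = Algebra.trace ℤ O (ε i * ε l * ε q) := rfl
    rw [h5, (isSym_iff hn hζ (x l) (y q) (θ l q)).1 (hθ l q), symHom_apply]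
    rfl
  let H : Subgroup Kˣ := (Units.map (algebraMap k K).toMonoidHom).range
  have hneg : (-1 : Kˣ) ∈ H := by
    refine ⟨-1, ?_⟩
    ext
    simp
  -- constants are `n`-th powers
  have hconst : ∀ a ∈ H, ∀ b, symHom hn hζ a b = 1 := by
    rintro _ ⟨c, rfl⟩ b
    obtain ⟨d, hd⟩ := IsAlgClosed.exists_pow_nat_eq (c : k) hn
    have hd0 : d ≠ 0 := by
      rintro rfl
      rw [zero_pow hn.ne'] at hd
      exact c.ne_zero hd.symm
    have hc : c = (Units.mk0 d hd0) ^ n := by
      ext
      rw [Units.val_pow_eq_pow_val, Units.val_mk0, hd]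
    rw [hc, map_pow, map_pow, MonoidHom.pow_apply, symHom_apply, symCl_tors]
  have hVH : ∀ a ∈ H, ∀ b ∈ H, symHom hn hζ a b ∈ (⊥ : Subgroup (BrauerGroup.{u, u} K)) := fun a ha b _ => by
    rw [hconst a ha b]; exact Subgroup.one_mem _
  have hlow : low (symHom hn hζ) H ⊥ z ≤ (⊥ : Subgroup (BrauerGroup.{u, u} K)) := by
    refine sup_le le_rfl ?_
    rw [Subgroup.closure_le]
    rintro γ ⟨a, ha, u, rfl⟩
    rw [hconst a ha]
    exact Subgroup.one_mem _
  have hGH : G = H ⊔ Subgroup.closure (Set.range z) := by
    rw [hG, Set.union_assoc, ← hz, Subgroup.closure_union]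
    congr 1
    exact Subgroup.closure_eq H
  have hα' : α ∈ Subgroup.closure {γ | ∃ a ∈ H ⊔ Subgroup.closure (Set.range z),
      ∃ b ∈ H ⊔ Subgroup.closure (Set.range z), γ = symHom hn hζ a b} := by
    have : {γ | ∃ a ∈ G, ∃ b ∈ G, IsSym n ζ a b γ} =
        {γ | ∃ a ∈ H ⊔ Subgroup.closure (Set.range z),
      ∃ b ∈ H ⊔ Subgroup.closure (Set.range z), γ = symHom hn hζ a b} := by
      ext γ
      simp only [Set.mem_setOf_eq, isSym_iff hn hζ, hGH, symHom_apply]
    rw [← this]; exact hα
  obtain ⟨s, t, hst⟩ := abs_all (s := symHom hn hζ) (fun a b => symCl_anti hn hζ a b) n hn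
    (fun a b => symCl_tors hn hζ a b) (-1) H hneg (fun a => symCl_diag hn hζ a) ⊥ hVH g hg (by simp [two_mul]) z
    (rmw ε) (fun i => by rw [hQ i]; exact Subgroup.one_mem _) hord hgood α hα'
  have h1 := hlow hst
  rw [Subgroup.mem_bot, mul_inv_eq_one] at h1
  refine ⟨⟨s, t, fun i => symCl hn hζ (s i) (t i), fun i => (isSym_iff hn hζ _ _ _).2 rfl, h1⟩, ?_⟩
  rw [h1]
  exact (hasRep_prod hn hζ (g - 1) s t).indDvd

end Pool.Agent.Results.MP_43d240_ag.SplitPrimes
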